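import Pool.Agent.Run7.h144.Suslin
import Pool.Agent.Run7.h144.MAK
import Pool.Agent.Run7.h144.Space

/-!
# The statement of MP_435463_gt does not follow from Martin's axiom for posets with property (K)

`FUStatement` is the statement of the problem. The theorem `result` says:

1. there is a preordered set `P` of conditions every element of which forces that all cardinals
   are preserved, that Martin's axiom for `ℵ₁` dense sets and preorders with property (K) holds
   (`MartinKHolds P Om1`), and that there is a rich Suslin tree (`RichSuslinHolds P`);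
2. `MartinKFor Om1`, the proposition translated by `MartinKHolds P Om1`, is equivalent to the
   usual form `MartinK` of this axiom;
3. `MartinK` implies that the continuum hypothesis fails;
4. if there is a rich Suslin tree (`RichSuslin`, the proposition translated by `RichSuslinHolds`)
   then there are a Lindelöf Tychonoff space `X` and a compact subspace `K` of `C_p(X)` which has
   uncountable tightness; so `K` is not Fréchet–Urysohn and `FUStatement` fails.
-/

set_option autoImplicit false

namespace Pool.Agent.Results.MP_435463_gt.KnasterMartinNotEnough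

open Cardinal Pool.Agent.Helper669.Forcing Pool.Agent.W684.FM Run7.h144

theorem result :
    (∃ (P : Type) (_ : Preorder P), Nonempty P ∧ ∀ p : P,
      p ∈ CardinalsPreserved.{0, 0} P ∧ p ∈ OmegaOnePreserved P ∧
        p ∈ MartinKHolds P Om1 ∧ p ∈ RichSuslinHolds P) ∧
    (MartinKFor Om1 ↔ MartinK) ∧
    (MartinK → (ℵ₁ : Cardinal.{0}) < 𝔠) ∧
    (RichSuslin → ∃ (X : Type) (_ : TopologicalSpace X), T35Space X ∧ LindelofSpace X ∧
      CountableExtent X ∧ ∃ K : Set (X → ℝ), (∀ f ∈ K, Continuous f) ∧ IsCompact K ∧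
        (∃ G ⊆ K, ∃ f ∈ K, f ∈ closure G ∧ ∀ C ⊆ G, C.Countable → f ∉ closure C) ∧
        ¬ FrechetUrysohnSpace K) ∧
    (RichSuslin → ¬ FUStatement) := by
  have hspace : RichSuslin → ∃ (X : Type) (_ : TopologicalSpace X), T35Space X ∧ LindelofSpace X ∧
      CountableExtent X ∧ ∃ K : Set (X → ℝ), (∀ f ∈ K, Continuous f) ∧ IsCompact K ∧
        (∃ G ⊆ K, ∃ f ∈ K, f ∈ closure G ∧ ∀ C ⊆ G, C.Countable → f ∉ closure C) ∧
        ¬ FrechetUrysohnSpace K := by
    intro h
    obtain ⟨X, τ, h1, h2, K, h3, h4, h5⟩ := exists_of_richSuslin h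
    exact ⟨X, τ, h1, h2, countableExtent_of_lindelof X, K, h3, h4, h5, not_frechetUrysohn h5⟩
  refine ⟨?_, martinKFor_iff, not_CH_of_martinK, hspace, ?_⟩
  · let W : Type := (Order.succ #Om1).ord.ToType
    have hW : Bdd Om1 W := bdd_succ Om1
    obtain ⟨w0, _⟩ := hW ∅ (by simp)
    obtain ⟨o, _, ho⟩ := WellFounded.has_min (wellFounded_lt (α := W)) Set.univ ⟨w0, trivial⟩
    have ho' : ∀ w, o ≤ w := fun w => not_lt.1 (ho w trivial)
    refine ⟨Run7.h144.PP (bd o ho'), inferInstance, ⟨⟨∅, valid_empty _⟩⟩, fun p => ?_⟩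
    exact ⟨(Run7.h144.pccc _).cardinalsPreserved p, (Run7.h144.pccc _).omegaOnePreserved p, martinKHolds hW p,
      richSuslinHolds p⟩
  · intro h hS
    obtain ⟨X, τ, h1, h2, h3, K, h4, h5, _, h6⟩ := hspace h
    exact h6 (hS X h3 K h4 h5)

end Pool.Agent.Results.MP_435463_gt.KnasterMartinNotEnough
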